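import Pool.Agent.helper55.VDI.SpecB1
import Pool.Agent.helper72.VD.AHLD

/-!
# Project INF (MP_07c750_an), row `vdi:LPA`: nearby coefficients
-/

set_option autoImplicit false

open scoped ContDiff Topology InnerProductSpace ComplexConjugate ENNReal
open MeasureTheory Filter Set

namespace Pool.Agent.VDI

open Pool.Agent.VD

noncomputable section

/-- the compact set of operators is convex -/
lemma LPA_cvx (d : ℕ) (b : ℝ) : Convex ℝ (AHLD_K d b) := by
  intro A hA A' hA' s t hs ht hst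
  refine ⟨?_, ?_, ?_⟩
  · have h1 : ‖s • A + t • A'‖ ≤ s * ‖A‖ + t * ‖A'‖ := by
      refine (norm_add_le _ _).trans ?_
      rw [norm_smul, norm_smul, Real.norm_of_nonneg hs, Real.norm_of_nonneg ht]
    have h2 := mul_le_mul_of_nonneg_left hA.1 hs
    have h3 := mul_le_mul_of_nonneg_left hA'.1 ht
    have h4 : s * b + t * b = b := by rw [← add_mul, hst, one_mul]
    linarith
  · intro u
    have h1 := mul_le_mul_of_nonneg_left (hA.2.1 u) hs
    have h2 := mul_le_mul_of_nonneg_left (hA'.2.1 u) ht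
    have h3 : ⟪(s • A + t • A') u, u⟫_ℝ = s * ⟪A u, u⟫_ℝ + t * ⟪A' u, u⟫_ℝ := by
      rw [add_apply, smul_apply, smul_apply, inner_add_left, real_inner_smul_left, real_inner_smul_left]
    have h4 : ‖u‖ ^ 2 = s * ‖u‖ ^ 2 + t * ‖u‖ ^ 2 := by rw [← add_mul, hst, one_mul]
    rw [h3]
    nlinarith
  · intro u v
    simp only [add_apply, smul_apply, inner_add_left, inner_add_right, real_inner_smul_left, real_inner_smul_right]
    rw [hA.2.2 u v, hA'.2.2 u v]

/-- smooth functions on the operators of positive determinant are Lipschitz continuous on the compact convex set -/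
lemma LPA_lip {d : ℕ} (b : ℝ) {E : Type} [NormedAddCommGroup E] [NormedSpace ℝ E] (F : (V d →L[ℝ] V d) → E)
    (hF : ContDiffOn ℝ ∞ F (AHLD_U d)) : ∃ C : ℝ, 0 ≤ C ∧ (∀ A ∈ AHLD_K d b, ‖fderiv ℝ F A‖ ≤ C) ∧
      ∀ A ∈ AHLD_K d b, ∀ A' ∈ AHLD_K d b, ‖F A - F A'‖ ≤ C * ‖A - A'‖ := by
  have hd : ContinuousOn (fderiv ℝ F) (AHLD_U d) := (hF.fderiv_of_isOpen (m := ∞) (AHLD_U_open d) (by simp)).continuousOn
  obtain ⟨C, hC⟩ := (AHLD_K_compact d b).exists_bound_of_continuousOn (f := fderiv ℝ F) (hd.mono (AHLD_KU d b))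
  refine ⟨max 0 C, le_max_left _ _, fun A hA => (hC A hA).trans (le_max_right _ _), fun A hA A' hA' => ?_⟩
  refine (LPA_cvx d b).norm_image_sub_le_of_norm_fderiv_le (fun z hz => ?_) (fun z hz => (hC z hz).trans (le_max_right _ _)) hA' hA
  exact (hF.contDiffAt ((AHLD_U_open d).mem_nhds (AHLD_KU d b hz))).differentiableAt (by simp)

/-- **LPA** -/
theorem LPA_proof : LPA_stmt := by
  intro d Γ _ _ K k B b r
  obtain ⟨m, hm⟩ := exists_nat_ge r
  set b0 : ℝ := max 1 (B m 0) with hb0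
  have hdetU : ContDiffOn ℝ ∞ (fun A : V d →L[ℝ] V d => Real.sqrt A.det) (AHLD_U d) := fun A hA =>
    ((EHB_det d).contDiffAt.sqrt (ne_of_gt hA)).contDiffWithinAt
  have hinvU : ContDiffOn ℝ ∞ (ContinuousLinearMap.inverse : (V d →L[ℝ] V d) → (V d →L[ℝ] V d)) (AHLD_U d) := by
    intro A hA
    have h1 : ((A.toContinuousLinearEquivOfDetNeZero (ne_of_gt hA) : V d ≃L[ℝ] V d) : V d →L[ℝ] V d) = A :=
      ContinuousLinearMap.coe_toContinuousLinearEquivOfDetNeZero A (ne_of_gt hA)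
    have h2 := contDiffAt_map_inverse (𝕜 := ℝ) (n := ∞) (A.toContinuousLinearEquivOfDetNeZero (ne_of_gt hA) : V d ≃L[ℝ] V d)
    rw [h1] at h2
    exact h2.contDiffWithinAt
  have hF3 : ContDiffOn ℝ ∞ (fun A : V d →L[ℝ] V d => Real.sqrt A.det • A.inverse) (AHLD_U d) := hdetU.smul hinvU
  obtain ⟨C1, hC10, -, hC1⟩ := LPA_lip b0 _ hdetU
  obtain ⟨C2, hC20, -, hC2⟩ := LPA_lip b0 _ hinvU
  obtain ⟨C3, hC30, hC3b, hC3⟩ := LPA_lip b0 _ hF3
  obtain ⟨C4, hC40, -, hC4⟩ := LPA_lip b0 (fderiv ℝ (fun A : V d →L[ℝ] V d => Real.sqrt A.det • A.inverse))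
    (hF3.fderiv_of_isOpen (m := ∞) (AHLD_U_open d) (by simp))
  set D : ℝ := |b m| with hD
  have hD0 : 0 ≤ D := abs_nonneg _
  set E : ℝ := |B m 1| with hE
  have hE0 : 0 ≤ E := abs_nonneg _
  refine ⟨1 + C1 * D + C2 * D + C3 * D + C4 * D * E, by nlinarith [mul_nonneg hC10 hD0, mul_nonneg hC20 hD0, mul_nonneg hC30 hD0, mul_nonneg (mul_nonneg hC40 hD0) hE0], ?_⟩
  intro R G G' x hR hG hN hx
  have hR0 : 0 ≤ R ^ (-LX d) := Real.rpow_nonneg (by linarith) _
  have hxm : ‖x‖ ≤ m := hx.trans hm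
  have key : ∀ H : V d → V d →L[ℝ] V d, Cls Γ K k B H → H x ∈ AHLD_K d b0 := by
    intro H hH
    refine ⟨?_, ?_, hH.met.symm x⟩
    · have h2 := hH.bd m 0 x hxm
      rw [norm_iteratedFDeriv_zero] at h2
      exact h2.trans (le_max_right _ _)
    · intro u
      have h3 : 0 ≤ ⟪H x u, u⟫_ℝ := by
        by_cases hu : u = 0
        · rw [hu, inner_zero_right]
        · exact (hH.met.pos x u hu).le
      exact (hH.lo m x u hxm).trans (mul_le_mul_of_nonneg_right (le_max_right _ _) h3)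
  have kG := key G hG
  have kG' := key G' hN.cls
  have hGd : DifferentiableAt ℝ G x := (hG.met.smooth.differentiable (by simp)) x
  have hGd' : DifferentiableAt ℝ G' x := (hN.cls.met.smooth.differentiable (by simp)) x
  have e0 : ‖G x - G' x‖ ≤ D * R ^ (-LX d) := by
    have h1 := hN.cl m 0 x (by norm_num) hxm
    rw [norm_iteratedFDeriv_zero] at h1
    exact h1.trans (mul_le_mul_of_nonneg_right (le_abs_self _) hR0)
  have e1 : ‖fderiv ℝ G x - fderiv ℝ G' x‖ ≤ D * R ^ (-LX d) := by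
    have h1 := hN.cl m 1 x (by norm_num) hxm
    rw [norm_iteratedFDeriv_one, fderiv_fun_sub hGd hGd'] at h1
    exact h1.trans (mul_le_mul_of_nonneg_right (le_abs_self _) hR0)
  have e2 : ‖fderiv ℝ G' x‖ ≤ E := by
    have h1 := hN.cls.bd m 1 x hxm
    rw [norm_iteratedFDeriv_one] at h1
    exact h1.trans (le_abs_self _)
  have hbig : ∀ c : ℝ, c ≤ 1 + C1 * D + C2 * D + C3 * D + C4 * D * E → c * R ^ (-LX d) ≤ (1 + C1 * D + C2 * D + C3 * D + C4 * D * E) * R ^ (-LX d) :=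
    fun c hc => mul_le_mul_of_nonneg_right hc hR0
  have p1 := mul_nonneg hC10 hD0
  have p2 := mul_nonneg hC20 hD0
  have p3 := mul_nonneg hC30 hD0
  have p4 := mul_nonneg (mul_nonneg hC40 hD0) hE0
  have hcd : ∀ {H : V d → V d →L[ℝ] V d}, Cls Γ K k B H → DifferentiableAt ℝ H x →
      fderiv ℝ (fun y => dens H y • IG H y) x = (fderiv ℝ (fun A : V d →L[ℝ] V d => Real.sqrt A.det • A.inverse) (H x)).comp (fderiv ℝ H x) := by
    intro H hH hd
    have h1 : DifferentiableAt ℝ (fun A : V d →L[ℝ] V d => Real.sqrt A.det • A.inverse) (H x) :=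
      (hF3.contDiffAt ((AHLD_U_open d).mem_nhds (AHLD_KU d b0 (key H hH)))).differentiableAt (by simp)
    exact fderiv_comp (𝕜 := ℝ) x h1 hd
  refine ⟨?_, ?_, ?_, ?_⟩
  · have h1 := hC1 _ kG _ kG'
    rw [Real.norm_eq_abs] at h1
    refine (h1.trans ((mul_le_mul_of_nonneg_left e0 hC10).trans (le_of_eq (mul_assoc _ _ _).symm))).trans (hbig _ ?_)
    linarith
  · have h1 := hC2 _ kG _ kG'
    refine (h1.trans ((mul_le_mul_of_nonneg_left e0 hC20).trans (le_of_eq (mul_assoc _ _ _).symm))).trans (hbig _ ?_)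
    linarith
  · have h1 := hC3 _ kG _ kG'
    refine (h1.trans ((mul_le_mul_of_nonneg_left e0 hC30).trans (le_of_eq (mul_assoc _ _ _).symm))).trans (hbig _ ?_)
    linarith
  · rw [hcd hG hGd, hcd hN.cls hGd']
    set L := fderiv ℝ (fun A : V d →L[ℝ] V d => Real.sqrt A.det • A.inverse) with hL
    have h1 : (L (G x)).comp (fderiv ℝ G x) - (L (G' x)).comp (fderiv ℝ G' x) =
        (L (G x)).comp (fderiv ℝ G x - fderiv ℝ G' x) + (L (G x) - L (G' x)).comp (fderiv ℝ G' x) := by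
      rw [ContinuousLinearMap.comp_sub, ContinuousLinearMap.sub_comp]
      abel
    rw [h1]
    have h2 : ‖(L (G x)).comp (fderiv ℝ G x - fderiv ℝ G' x)‖ ≤ C3 * (D * R ^ (-LX d)) :=
      (ContinuousLinearMap.opNorm_comp_le _ _).trans (mul_le_mul (hC3b _ kG) e1 (norm_nonneg _) hC30)
    have h3 : ‖(L (G x) - L (G' x)).comp (fderiv ℝ G' x)‖ ≤ C4 * (D * R ^ (-LX d)) * E :=
      (ContinuousLinearMap.opNorm_comp_le _ _).trans (mul_le_mul ((hC4 _ kG _ kG').trans (mul_le_mul_of_nonneg_left e0 hC40)) e2 (norm_nonneg _)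
        (mul_nonneg hC40 (mul_nonneg hD0 hR0)))
    refine le_trans (norm_add_le ((L (G x)).comp (fderiv ℝ G x - fderiv ℝ G' x)) ((L (G x) - L (G' x)).comp (fderiv ℝ G' x))) (le_trans (add_le_add h2 h3) ?_)
    have h4 : C3 * (D * R ^ (-LX d)) + C4 * (D * R ^ (-LX d)) * E = (C3 * D + C4 * D * E) * R ^ (-LX d) := by ring
    rw [h4]
    exact hbig _ (by linarith)

end

end Pool.Agent.VDI
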