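import Pool.Agent.helper74.VDI.SpecF

/-!
# Project INF (MP_07c750_an), version A: conformal families `Gs s = e^(∑ s_a h_a) G0`; rows `vdi:X`

RULES as in SpecF (`import Pool.Agent.helper74.VDI.SpecA`).
-/

set_option autoImplicit false

open scoped ContDiff Topology InnerProductSpace ENNReal ComplexConjugate
open MeasureTheory Filter Set

namespace Pool.Agent.VDI

open Pool.Agent.RPQ (PN PJ UN upd)
open Pool.Agent.VQ (CH rk)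
open Pool.Agent.VN (aN)
open Pool.Agent.VD
open Pool.Agent.VDE (UWLD FDX)

noncomputable section

variable {d : ℕ}

/-- conformal families -/
def CFa (Γ : Type) [Group Γ] [MulAction Γ (V d)] (m : ℕ) (Gs : V m → V d → V d →L[ℝ] V d) : Prop :=
  ∃ (G0 : V d → V d →L[ℝ] V d) (hs : Fin m → V d → ℝ), IsMetric G0 ∧ IsoE Γ G0 ∧ (∀ a, ContDiff ℝ ∞ (hs a) ∧ Inv Γ (hs a)) ∧ Gs = fun s => cfm (fun x => ∑ a, s a * hs a x) G0

/-- **Row CFF** (conformal families are smooth families; short). `FNWE_iso`, `cfm` of a smooth function is a metric (CFC or `FND_met`). -/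
def CFF_stmt : Prop := ∀ (d : ℕ) (Γ : Type) [Group Γ] [MulAction Γ (V d)] (m : ℕ) (Gs : V m → V d → V d →L[ℝ] V d), CFa Γ m Gs → SFm Γ m Gs

/-- **Row TLDI** (tails with a slack; short; copy of helper11/VD/TLDb.lean with other constants; from SRD, SED). As TLD, but in the second part `R^(1/100)/2` instead of `R^(1/100)` and `R^(-3)/2` instead of `R^(-3)`. -/
def TLDI_stmt : Prop := ∀ (d : ℕ) (Γ : Type) [Group Γ] [MulAction Γ (V d)] (K0 : Set (V d)) (C : Set (V d) → ℕ → ℝ) (k0 : ℕ) (J : ℕ → ℕ) (p : (k : ℕ) → Fin (J k) → V d) (χ : (k : ℕ) → Fin (J k) → V d → ℝ), FdK Γ K0 → FamD Γ K0 C k0 J p χ → ∃ (Bs : ℕ → ℕ → ℝ) (R0 : ℝ), 3 ≤ R0 ∧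
  ∀ (R : ℝ) (K : ℕ), R0 ≤ R → 2 ^ K ≤ R → R ≤ 2 ^ (K + 1) →
    (∀ (v : ℕ × ℕ → ℝ) (ξ : Fin (J K) → ℝ), (∀ q, |v q| ≤ 1) → (∀ a, |ξ a| ≤ 1) → SmS Γ Bs (R ^ (1 / 100 : ℝ)) R (fun x => wD χ K v x + aN K * VF (χ K) ξ x)) ∧
    ∀ ζ v : ℕ × ℕ → ℝ, (∀ q, |ζ q| ≤ 1) → (∀ q, |v q| ≤ 1) → (∀ q : ℕ × ℕ, q.1 ≤ 4 * K → q.1 ≠ K → q.2 < J q.1 → |v q - ζ q| ≤ R ^ (-10 : ℝ)) →
      SmS Γ Bs (R ^ (1 / 100 : ℝ) / 2) R (fun x => rD χ ζ x - bD χ K v x) ∧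
      ∀ x, |rD χ ζ x - bD χ K v x - (wD χ K v x + aN K * VF (χ K) (fun j => ζ (K, (j : ℕ))) x)| ≤ R ^ (-3 : ℝ) / 2

/-- **Row BC1I** (one frequency, conformal families; medium; adaptation of helper89/VD/BC1D.lean; from PRD, TLDI, GFL, VN.GIN, VQ.RND, VQ.RSB, NNC, MVE, CFC). `Gs s = cfm (∑ s_a h_a) G0`, so `cfm (bD χ K' v) (Gs s) = cfm (bD χ K' v + ∑ s_a h_a) G0`. `Bs` from TLDI; let `D` be a bound of the `h_a` and `D m' n` bounds of their derivatives on the balls;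
`B' m' n = Bs' m' n + m (D m' n)`, `Bs' = max (Bs, 0)`. PRD with `e/2`, `M0 = 4 + 5 m`, `B'`. Cells: the box `|s_a| ≤ S` (contains the ball `‖s‖ ≤ S`) is divided into at most `R^(5m)/2`, hence fewer than `R^(5m)` cells in which `|s_a - s'_a| ≤ R^(-4)/...` (e.g. the cell of `s` is the integer vector `⌊s_a N⌋`, `N = ⌈R^(9/2)⌉`, a finite set of at most `(2 S N + 3)^m ≤ R^(5m)` vectors for `R ≥ R0`).
For each cell `c` and each `b ∈ T` choose, if it exists, a representative `s_(c,b)` in the cell with `‖s‖ ≤ S`, `Cls Γ K k B G_(c,b)` and the weak law `UWLD F0 G_(c,b) Φ h (e/1600) v0 T0` for its flow, `G_(c,b) = cfm (bD χ K' (v b)) (Gs s_(c,b))`; `E b = ⋃_c {ξ | ¬ GdD Γ B' F0 h (e/2) R G_(c,b) (wD + aN VF)}`: `PJ (E b) ≤ R^(5m) R^(-4-5m) = R^(-4) = i^(-2)` (PRD for `e/2`: the weak law with `e/2/800 = e/1600`). RSB.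
For `ζ` in the bad set with the parameter `s`: `s` is a candidate in its cell `c`, so the representative `s_c` exists; `f' = (rD χ ζ - bD χ K' (v ζ)) + ∑ (s_a - (s_c)_a) h_a`: `cfm f' G_c = cfm (rD χ ζ) (Gs s)`, `SmS Γ B' (R^(1/100)) R f'` (TLDI (2); `m R^(-9/2) D ≤ (R^(1/100)/2)/R`), `|f' - (wD + aN VF)| ≤ R^(-3)/2 + m R^(-9/2) D ≤ R^(-3)`.
`GdD` gives the inequality with `e/2` for the measure of `G_c`; NNC with `f = ∑ (s_a - (s_c)_a) h_a`, `η = m R^(-9/2) D → 0` passes to the measure of `G = cfm f G_c = cfm (bD χ K' (v ζ)) (Gs s)` with `e` (the numerical lemma `BC2D_real` of helper48/VD/BC2D.lean does exactly this). Only finitely many things depend on `e`, `m`, `S`, `D`: `i0` large. -/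
def BC1I_stmt : Prop := ∀ (d : ℕ) (Γ : Type) [Group Γ] [MulAction Γ (V d)] (K F0 : Set (V d)) (r0 : ℝ) (χ0 : V d → ℝ) (ch : ℝ → ℝ) (Cn : Set (V d) → ℕ → ℝ) (k0 : ℕ) (J : ℕ → ℕ) (p : (k : ℕ) → Fin (J k) → V d) (χ : (k : ℕ) → Fin (J k) → V d → ℝ) (m : ℕ) (Gs : V m → V d → V d →L[ℝ] V d),
  2 ≤ d → FdK Γ K → FDX Γ K F0 → PU Γ r0 χ0 → CH ch → FamD Γ K Cn k0 J p χ → CFa Γ m Gs → BCP Γ K F0 J χ Gs

/-- **Row FNA** (the final theorem of version A; short; from FNWF, BC1I, CFF). `Q = CFa Γ`. The functions `hs` are `ℕ → V d → ℝ`; for each `m` the family of the first `m` functions (`∑ a : Fin m` against `∑ a ∈ range m`); countably many `m`. -/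
def FNA_stmt : Prop := ∀ (d : ℕ) (Γ : Type) [Group Γ] [MulAction Γ (V d)], 2 ≤ d →
    (∀ γ : Γ, ContDiff ℝ ∞ fun x : V d => γ • x) → (∀ (γ : Γ) (x : V d), γ • x = x → γ = 1) →
    (∀ K : Set (V d), IsCompact K → {γ : Γ | ∃ x ∈ K, γ • x ∈ K}.Finite) → (∃ K : Set (V d), IsCompact K ∧ ∀ x : V d, ∃ γ : Γ, γ • x ∈ K) →
    ∃ (k₀ : ℕ) (J : ℕ → ℕ) (u : ℕ → ℕ → V d → ℝ), (∀ k, k₀ ≤ k → 1 ≤ J k) ∧
      (∀ k j, ContDiff ℝ ∞ (u k j) ∧ Inv Γ (u k j) ∧ ∀ x, 0 ≤ u k j x) ∧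
      (∀ L : Set (V d), IsCompact L → ∀ n : ℕ, ∃ c : ℕ → ℝ, Summable c ∧ ∀ (k : ℕ) (ξ : ℕ → ℝ), (∀ j, |ξ j| ≤ 1) →
        ∀ x ∈ L, ‖iteratedFDeriv ℝ n (fun x => ∑ j ∈ Finset.range (J k), ξ j * u k j x) x‖ ≤ c k) ∧
      (∀ ξ : ℕ × ℕ → ℝ, (∀ q, |ξ q| ≤ 1) → ContDiff ℝ ∞ (fun x => ∑' k, ∑ j ∈ Finset.range (J k), ξ (k, j) * u k j x)) ∧
      ∀ G : V d → V d →L[ℝ] V d, IsMetric G → IsoE Γ G → ∀ hs : ℕ → V d → ℝ, (∀ a, ContDiff ℝ ∞ (hs a) ∧ Inv Γ (hs a)) →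
        (∀ᵐ ξ ∂(Measure.infinitePi fun _ : ℕ × ℕ => UN), ∀ (m : ℕ) (s : ℕ → ℝ), NegativelyCurved (cfm (fun x => (∑' k, ∑ j ∈ Finset.range (J k), ξ (k, j) * u k j x) + ∑ a ∈ Finset.range m, s a * hs a x) G) →
          ∀ F : Set (V d), IsFundamentalDomain Γ F (volume : Measure (V d)) → QUE Γ F (cfm (fun x => (∑' k, ∑ j ∈ Finset.range (J k), ξ (k, j) * u k j x) + ∑ a ∈ Finset.range m, s a * hs a x) G)) ∧
        (NegativelyCurved G → ∀ (L : Set (V d)) (n₀ : ℕ) (τ : ℝ), IsCompact L → 0 < τ → 0 < (Measure.infinitePi fun _ : ℕ × ℕ => UN) {ξ : ℕ × ℕ → ℝ |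
          (∀ n ≤ n₀, ∀ x ∈ L, ‖iteratedFDeriv ℝ n (fun x => ∑' k, ∑ j ∈ Finset.range (J k), ξ (k, j) * u k j x) x‖ ≤ τ) ∧
          NegativelyCurved (cfm (fun x => ∑' k, ∑ j ∈ Finset.range (J k), ξ (k, j) * u k j x) G) ∧
          ∀ (m : ℕ) (s : ℕ → ℝ), NegativelyCurved (cfm (fun x => (∑' k, ∑ j ∈ Finset.range (J k), ξ (k, j) * u k j x) + ∑ a ∈ Finset.range m, s a * hs a x) G) →
            ∀ F : Set (V d), IsFundamentalDomain Γ F (volume : Measure (V d)) → QUE Γ F (cfm (fun x => (∑' k, ∑ j ∈ Finset.range (J k), ξ (k, j) * u k j x) + ∑ a ∈ Finset.range m, s a * hs a x) G)})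

end

end Pool.Agent.VDI
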