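import Pool.Agent.helper11.VD.AllD
import Pool.Agent.helper23.VDI.FNWF
import Pool.Agent.helper32.VDI.FNF
import Pool.Agent.helper40.VDI.FNA
import Pool.Agent.helper43.VDI.NGB
import Pool.Agent.helper48.VDI.NGM
import Pool.Agent.helper54.VDI.FBL
import Pool.Agent.helper64.VDI.BC2F
import Pool.Agent.helper78.VDI.PODF
import Pool.Agent.helper87.VDI.CFF
import Pool.Agent.helper92.VDI.TLDI
import Pool.Agent.helper98.VDI.BC1I

/-!
# Project INF (MP_07c750_an): assembly of the common rows and of version A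
-/

set_option autoImplicit false

namespace Pool.Agent.VDI

open Pool.Agent.AllD

/-- the statement for a class of families -/
theorem FNWF_all : FNWF_stmt :=
  FNWF_proof (FNF_proof (BC2F_proof A_VDE_IUD A_VD_SED (PODF_proof A_VD_POD A_VD_CFC FBL_proof) A_VD_CFC A_VD_NNC A_VD_MVE RPQ.A_RSM) A_VD_FMD A_VD_SED A_VD_LND A_VD_MVE RPQ.A_RSM A_VD_APUE)
    A_VD_FTR (NGB_proof (NGM_proof A_VD_RSY A_VD_RCN A_VD_NAT) FBL_proof A_VD_CFC) A_VD_FPS A_VD_DFD A_VD_CFC RPQ.A_RSM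

/-- version A -/
theorem FNA_all : FNA_stmt :=
  FNA_proof FNWF_all (BC1I_proof A_VD_PRD (TLDI_proof A_VD_SRD) A_VD_GFL A_VN_GIN A_VQ_RND A_VQ_RSB A_VD_NNC A_VD_MVE) CFF_proof

end Pool.Agent.VDI
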