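import Pool.Agent.helper74.VDI.SpecF
import Pool.Agent.helper55.VD.SpecE5

/-!
# Project INF (MP_07c750_an), version B: ALL smooth families; part 0: pairs of metrics, the interfaces; rows `vdi:X`

The kernel (packets, flow, big steps) lives on the metric `G`; the eigenfunction belongs to `e^(f') G'`, where `G'` is in the SAME class and `R^(-L)`-close to `G` on every ball, `L = LX d` fixed. Only the weak form of the equation is used: all derivatives fall on the packets, which have crude bounds.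

TRICK: the half density. `ρ = (dens G' / dens G)^(1/2)` is smooth and `Γ`-invariant, `ρ = 1 + O(R^(-L))`; `u ↦ ρ u` is an isometry from `L²(F, mv G')` to `L²(F, mv G)`, and `QF G' u = QF G (ρ u)` exactly (the packets are half densities). For a packet `ψ` of `G`:
`∫ ρ u conj (Hop G ψ) dmv G = ∫ ρ (Hop G' u) conj ψ dmv G + small`, where small `= ∫ (dens G')^(1/2) u conj ((P_G - P_G') ψ̂) dz` is a pointwise error (`P` = the operator on half densities, `ψ̂ = (dens G)^(1/2) ψ`).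

RULES as in SpecF (`import Pool.Agent.helper74.VDI.SpecB0`).
-/

set_option autoImplicit false

open scoped ContDiff Topology InnerProductSpace ENNReal ComplexConjugate
open MeasureTheory Filter Set

namespace Pool.Agent.VDI

open Pool.Agent.RPQ (PN PJ UN upd IsOp)
open Pool.Agent.VQ (CH AdZ perZ rk)
open Pool.Agent.VN (aN)
open Pool.Agent.VD
open Pool.Agent.VDE (UWLD FDX)

noncomputable section

variable {d : ℕ}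

/-- the fixed exponent of closeness -/
def LX (d : ℕ) : ℝ := 10 * d + 100

/-- `G'` is in the same class as `G` and close to `G` (with two derivatives) -/
structure Nr (Γ : Type) [Group Γ] [MulAction Γ (V d)] (K : Set (V d)) (k : ℝ) (B : ℕ → ℕ → ℝ) (b : ℕ → ℝ) (R : ℝ) (G G' : V d → V d →L[ℝ] V d) : Prop where
  cls : Cls Γ K k B G'
  cl : ∀ (m n : ℕ) (x : V d), n ≤ 2 → ‖x‖ ≤ m → ‖iteratedFDeriv ℝ n (fun y => G y - G' y) x‖ ≤ b m * R ^ (-LX d)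

/-- eigenfunctions of the metric `e^(f') G'` with frequency close to `R`; `f` = the model of `f'` which is used in the kernels, `G` = the model of `G'` -/
structure EgB (Γ : Type) [Group Γ] [MulAction Γ (V d)] (K : Set (V d)) (k : ℝ) (B B' : ℕ → ℕ → ℝ) (b : ℕ → ℝ) (R : ℝ) (G G' : V d → V d →L[ℝ] V d) (f f' : V d → ℝ) (μ : ℝ) (φ : V d → ℂ) : Prop where
  nr : Nr Γ K k B b R G G'
  sm : SmS Γ B' (R ^ (1 / 100 : ℝ)) R f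
  sm' : SmS Γ B' (R ^ (1 / 100 : ℝ)) R f'
  cl : ∀ x, |f' x - f x| ≤ R ^ (-3 : ℝ)
  pos : 0 < μ
  mu : |Real.sqrt μ - R| ≤ R ^ (-(1 / 100) : ℝ)
  eig : Eigenfunction Γ (cfm f' G') μ φ

/-- **(I3B) the fixed vector**: `I3D_stmt` for pairs of metrics -/
def I3B_stmt : Prop := ∀ (d : ℕ) (Γ : Type) [Group Γ] [MulAction Γ (V d)] (K F0 : Set (V d)) (r0 : ℝ) (χ : V d → ℝ) (ch : ℝ → ℝ) (k : ℝ) (B B' : ℕ → ℕ → ℝ) (b : ℕ → ℝ), 2 ≤ d → FdK Γ K → FDX Γ K F0 → PU Γ r0 χ → CH ch → ∃ C : ℝ, 1 ≤ C ∧ ∀ A : Par, Adm C A → ∃ δ R0 : ℝ, 0 < δ ∧ 1 ≤ R0 ∧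
  ∀ (R : ℝ) (G G' : V d → V d →L[ℝ] V d) (Φ : ℝ → P d → P d) (f f' : V d → ℝ) (μ : ℝ) (φ : V d → ℂ), R0 ≤ R → Cls Γ K k B G → IsFlow G Φ → EgB Γ K k B B' b R G G' f f' μ φ →
    Measurable (QF (Γ := Γ) G χ ch A.z R φ) ∧ (∫⁻ y in DT d {1}, ‖QF G χ ch A.z R φ y‖ₑ ^ 2 ∂mW Γ G r0 R ≤ ENNReal.ofReal ((1 + R ^ (-δ)) * nn G F0 φ)) ∧
    (ENNReal.ofReal ((1 - R ^ (-δ)) * nn G F0 φ) ≤ ∫⁻ y in GW Γ G r0 1 R ∩ DT d {1}, ‖QF G χ ch A.z R φ y‖ₑ ^ 2 ∂mW Γ G r0 R) ∧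
    ∀ T : Lp ℂ 2 ((mW Γ G r0 R).restrict (DT d {1})) →L[ℂ] Lp ℂ 2 ((mW Γ G r0 R).restrict (DT d {1})), IsOp ((mW Γ G r0 R).restrict (DT d {1})) (perZ Γ (KB G Φ r0 χ ch A R f)) T →
      ∀ Ψ : Lp ℂ 2 ((mW Γ G r0 R).restrict (DT d {1})), (Ψ : YS Γ d → ℂ) =ᵐ[(mW Γ G r0 R).restrict (DT d {1})] QF G χ ch A.z R φ → ‖T Ψ - Ψ‖ ^ 2 ≤ R ^ (-δ) * nn G F0 φ

/-- **(I8B) time averages**: `I8D_stmt` for pairs of metrics -/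
def I8B_stmt : Prop := ∀ (d : ℕ) (Γ : Type) [Group Γ] [MulAction Γ (V d)] (K F0 : Set (V d)) (r0 : ℝ) (χ : V d → ℝ) (ch : ℝ → ℝ) (k : ℝ) (B B' : ℕ → ℕ → ℝ) (b : ℕ → ℝ), 2 ≤ d → FdK Γ K → FDX Γ K F0 → PU Γ r0 χ → CH ch → ∃ C : ℝ, 1 ≤ C ∧ ∀ (A : Par) (h : V d → ℝ), Adm C A → TD Γ h → ∃ δ R0 : ℝ, 0 < δ ∧ 1 ≤ R0 ∧
  ∀ (R : ℝ) (G G' : V d → V d →L[ℝ] V d) (Φ : ℝ → P d → P d) (f f' : V d → ℝ) (μ : ℝ) (φ : V d → ℂ), R0 ≤ R → Cls Γ K k B G → IsFlow G Φ → EgB Γ K k B B' b R G G' f f' μ φ →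
    |(∫ x in F0, h x * ‖φ x‖ ^ 2 ∂mv G) - ∫ y in DT d {1}, avP Φ h (A.tu R) y.2 * ‖QF G χ ch A.z R φ y‖ ^ 2 ∂mW Γ G r0 R| ≤ R ^ (-δ) * nn G F0 φ

/-- **Row DTDB** (deterministic part; short; copy of helper98/VD/DTD.lean with `EgB`; from DTA, I2D, I3B, I4D, I8B, PSY, KZD, MTD, MVE, LEN, CTD, VQ.KSZ). -/
def DTDB_stmt : Prop := ∀ (d : ℕ) (Γ : Type) [Group Γ] [MulAction Γ (V d)] (K F0 : Set (V d)) (r0 : ℝ) (χ0 : V d → ℝ) (ch : ℝ → ℝ) (k : ℝ) (B B' : ℕ → ℕ → ℝ) (bn : ℕ → ℝ), 2 ≤ d → FdK Γ K → FDX Γ K F0 → PU Γ r0 χ0 → CH ch → ∃ C : ℝ, 1 ≤ C ∧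
  ∀ (A : Par) (h : V d → ℝ) (e : ℝ) (b L n : ℕ), Adm C A → TD Γ h → 0 < e → 1 ≤ b → 1 ≤ L → 1 ≤ n → ∃ δ' R0 : ℝ, 0 < δ' ∧ 1 ≤ R0 ∧
    ∀ (R : ℝ) (G G' : V d → V d →L[ℝ] V d) (Φ : ℝ → P d → P d) (f f' : V d → ℝ) (μ : ℝ) (φ : V d → ℂ), R0 ≤ R → Cls Γ K k B G → IsFlow G Φ → EgB Γ K k B B' bn R G G' f f' μ φ →
      (∀ l ∈ AdZ b L n, HSD Γ G Φ r0 χ0 ch A R f (SBD Γ G Φ r0 F0 h e (A.tu R) R) l ≤ ENNReal.ofReal (δ' ^ 2)) →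
      |(∫ x in F0, h x * ‖φ x‖ ^ 2 ∂mv G) - mean G F0 h * nn G F0 φ| ≤ (4 * e + (2 * L + 1) / n) * nn G F0 φ

/-- the conclusion for one metric `e^f G` and one test function: all eigenfunctions with frequency close to `R` of all metrics `e^(f') G'` with `f'` close to `f`, `G'` close to `G` -/
def GdB (Γ : Type) [Group Γ] [MulAction Γ (V d)] (K : Set (V d)) (k : ℝ) (B B' : ℕ → ℕ → ℝ) (b : ℕ → ℝ) (F0 : Set (V d)) (h : V d → ℝ) (e R : ℝ) (G : V d → V d →L[ℝ] V d) (f : V d → ℝ) : Prop :=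
  ∀ (G' : V d → V d →L[ℝ] V d) (f' : V d → ℝ) (μ : ℝ) (φ : V d → ℂ), Nr Γ K k B b R G G' → SmS Γ B' (R ^ (1 / 100 : ℝ)) R f' → (∀ x, |f' x - f x| ≤ R ^ (-3 : ℝ)) →
    0 < μ → |Real.sqrt μ - R| ≤ R ^ (-(1 / 100) : ℝ) → Eigenfunction Γ (cfm f' G') μ φ → |(∫ x in F0, h x * ‖φ x‖ ^ 2 ∂mv G) - mean G F0 h * nn G F0 φ| ≤ e * nn G F0 φ

/-- **Row PRDB** (one frequency; short-medium; copy of helper39/VD/PRD.lean with `GdB`, DTDB; from DTDB, VHPD, WXD, VQ.PIZ, VQ.KSZ, PSY, KZD, MTD, VLD, LEN, CTD, RPQ.SNC). -/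
def PRDB_stmt : Prop := ∀ (d : ℕ) (Γ : Type) [Group Γ] [MulAction Γ (V d)] (K F0 : Set (V d)) (r0 : ℝ) (χ0 : V d → ℝ) (ch : ℝ → ℝ) (k : ℝ) (B B' : ℕ → ℕ → ℝ) (bn : ℕ → ℝ) (Cn : Set (V d) → ℕ → ℝ), 2 ≤ d → FdK Γ K → FDX Γ K F0 → PU Γ r0 χ0 → CH ch → ∀ (h : V d → ℝ) (e : ℝ), TD Γ h → 0 < e → ∃ v0 : ℝ, 0 < v0 ∧
  ∀ T0 M0 : ℝ, 1 ≤ T0 → 0 ≤ M0 → ∃ a R0 C2 : ℝ, 1 ≤ a ∧ 3 ≤ R0 ∧ 1 ≤ C2 ∧ ∀ (R ρ s : ℝ) (J : ℕ) (p : Fin J → V d) (χ : Fin J → V d → ℝ) (W : V d → ℝ) (G : V d → V d →L[ℝ] V d) (Φ : ℝ → P d → P d), R0 ≤ R → 0 < ρ → ρ ≤ (Real.log R) ^ (-(2 * a + 2)) →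
    C2 / ρ ≤ R * s → NetD Γ K Cn ρ J p χ → Cls Γ K k B G → IsFlow G Φ → UWLD F0 G Φ h (e / 800) v0 T0 → (∀ ξ : Fin J → ℝ, (∀ a, |ξ a| ≤ 1) → SmS Γ B' (R ^ (1 / 100 : ℝ)) R (fun x => W x + s * VF χ ξ x)) →
      PJ J {ξ | ¬ GdB Γ K k B B' bn F0 h e R G (fun x => W x + s * VF χ ξ x)} ≤ ENNReal.ofReal (R ^ (-M0))

end

end Pool.Agent.VDI
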