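import Pool.Agent.helper38.VD.FNWE

/-!
# Project INF (MP_07c750_an): QUE outside a set of infinite codimension, part 1: smooth finite-parameter families of metrics; rows `vdi:X`

THE RESULT: for almost every `ξ`: for EVERY parameter `s ∈ ℝ^m` of the smooth family `Gs` for which the metric `e^(F_ξ) (Gs s)` is negatively curved, this metric has QUE. The same random function `F_ξ` (and the same null set of the metric) works for all `s` simultaneously.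
Version A: conformal families `Gs s = e^(∑ s_a h_a) G0` (SpecA). Version B: all smooth families (SpecB). The rows of this file serve both versions: `Q` is the class of families.

RULES. Row `vdi:XXX`: file `Pool/Agent/<seat>/VDI/XXX.lean`, `import Pool.Agent.helper74.VDI.SpecF`, `set_option autoImplicit false`, namespace `Pool.Agent.VDI`, the `open` lines of this file, auxiliary lemmas prefixed `XXX_`, theorem `XXX_proof (h..) : XXX_stmt` (rows listed in `from` may be used as hypotheses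
`(h : YYY_stmt)`; rows of RPQ, VQ, VN, VD as `(h : VD.YYY_stmt)` etc.; proved files may be imported). No `convert`, `congr!`, `native_decide`, no double quotes, no `private`, no commands starting with a sharp sign.
-/

set_option autoImplicit false

open scoped ContDiff Topology InnerProductSpace ENNReal ComplexConjugate
open MeasureTheory Filter Set

namespace Pool.Agent.VDI

open Pool.Agent.RPQ (PN PJ UN upd)
open Pool.Agent.VQ (CH rk)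
open Pool.Agent.VN (aN)
open Pool.Agent.VD
open Pool.Agent.VDE (UWLD FDX)

noncomputable section

variable {d : ℕ}

/-- smooth families of metrics which are invariant under `Γ`; the parameter is `s ∈ ℝ^m` -/
structure SFm (Γ : Type) [Group Γ] [MulAction Γ (V d)] (m : ℕ) (Gs : V m → V d → V d →L[ℝ] V d) : Prop where
  smooth : ContDiff ℝ ∞ fun q : V m × V d => Gs q.1 q.2
  met : ∀ s, IsMetric (Gs s)
  iso : ∀ s, IsoE Γ (Gs s)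

/-- the conclusion of the first part of Borel-Cantelli for one family (compare `BC1D_stmt`; the bad event now is: there is a parameter `s`, `‖s‖ ≤ S`, such that ...; `e / 1600` instead of `e / 800`) -/
def BCP (Γ : Type) [Group Γ] [MulAction Γ (V d)] (K F0 : Set (V d)) (J : ℕ → ℕ) (χ : (k : ℕ) → Fin (J k) → V d → ℝ) {m : ℕ} (Gs : V m → V d → V d →L[ℝ] V d) : Prop :=
  ∀ (k : ℝ) (B : ℕ → ℕ → ℝ) (S : ℝ) (h : V d → ℝ) (e : ℝ), 0 ≤ S → TD Γ h → 0 < e → ∃ v0 : ℝ, 0 < v0 ∧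
    ∀ T0 : ℝ, 1 ≤ T0 → ∃ i0 : ℕ, ∀ i : ℕ, i0 ≤ i → ∃ (K' : ℕ) (v : (ℕ × ℕ → ℝ) → ℕ × ℕ → ℝ), 2 ^ K' ≤ Real.sqrt i ∧ Real.sqrt i ≤ 2 ^ (K' + 1) ∧ (∀ ζ q, |v ζ q| ≤ 1) ∧
      (∀ ζ : ℕ × ℕ → ℝ, (∀ q, |ζ q| ≤ 1) → ∀ q : ℕ × ℕ, q.1 ≤ 4 * K' → q.1 ≠ K' → q.2 < J q.1 → |v ζ q - ζ q| ≤ Real.sqrt i ^ (-10 : ℝ)) ∧
      PN {ζ | (∀ q, |ζ q| ≤ 1) ∧ ∃ s : V m, ‖s‖ ≤ S ∧ Cls Γ K k B (cfm (bD χ K' (v ζ)) (Gs s)) ∧ (∀ Φ : ℝ → P d → P d, IsFlow (cfm (bD χ K' (v ζ)) (Gs s)) Φ → UWLD F0 (cfm (bD χ K' (v ζ)) (Gs s)) Φ h (e / 1600) v0 T0) ∧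
        ∃ (μ : ℝ) (φ : V d → ℂ), 0 < μ ∧ |Real.sqrt μ - Real.sqrt i| ≤ Real.sqrt i ^ (-(1 / 100) : ℝ) ∧ Eigenfunction Γ (cfm (rD χ ζ) (Gs s)) μ φ ∧
          e * nn (cfm (bD χ K' (v ζ)) (Gs s)) F0 φ < |(∫ x in F0, h x * ‖φ x‖ ^ 2 ∂mv (cfm (bD χ K' (v ζ)) (Gs s))) - mean (cfm (bD χ K' (v ζ)) (Gs s)) F0 h * nn (cfm (bD χ K' (v ζ)) (Gs s)) F0 φ|} ≤ ENNReal.ofReal ((i : ℝ) ^ (-2 : ℝ))

/-- the class `Q` of families is admissible: its members are smooth families and satisfy `BCP` -/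
def AdQ (Γ : Type) [Group Γ] [MulAction Γ (V d)] (K F0 : Set (V d)) (Q : (m : ℕ) → (V m → V d → V d →L[ℝ] V d) → Prop) : Prop :=
  ∀ (m : ℕ) (Gs : V m → V d → V d →L[ℝ] V d), Q m Gs → SFm Γ m Gs ∧ ∀ (r0 : ℝ) (χ0 : V d → ℝ) (ch : ℝ → ℝ) (Cn : Set (V d) → ℕ → ℝ) (k0 : ℕ) (J : ℕ → ℕ) (p : (k : ℕ) → Fin (J k) → V d) (χ : (k : ℕ) → Fin (J k) → V d → ℝ),
    PU Γ r0 χ0 → CH ch → FamD Γ K Cn k0 J p χ → BCP Γ K F0 J χ Gs

/-- **Row FBL** (families: bounds and Lipschitz dependence on the parameter; medium; PURE). `∂_x^n` of the jointly smooth function: `iteratedFDeriv ℝ n (Gs s) x` is a continuous (indeed smooth) function of `(s, x)` (induction on `n`: `fderiv ℝ (Gs s) x = (fderiv ℝ (uncurried) (s, x)).comp (inr)`, smooth in `(s, x)`; or `iteratedFDeriv` of `g ∘ (x ↦ (s, x))`,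
`iteratedFDeriv_comp_right`-like after a translation, `ContDiff.fderiv`), so bounded on the compact set `‖s‖ ≤ S`, `‖x‖ ≤ m'` and, by the mean value inequality on the convex ball `‖s‖ ≤ S` (bound of the derivative in `s`), Lipschitz in `s`. Lower bound: `⟪Gs s x u, u⟫` is continuous and positive on the compact set `‖s‖ ≤ S`, `‖x‖ ≤ m'`, `‖u‖ = 1`.
The constant for `n = 0` is the maximum of the bound of the norm and the inverse of this minimum. -/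
def FBL_stmt : Prop := ∀ (d m : ℕ) (Gs : V m → V d → V d →L[ℝ] V d) (S : ℝ), (ContDiff ℝ ∞ fun q : V m × V d => Gs q.1 q.2) → (∀ s, IsMetric (Gs s)) → ∃ b : ℕ → ℕ → ℝ, (∀ m' n, 1 ≤ b m' n) ∧
  (∀ (m' n : ℕ) (s : V m) (x : V d), ‖s‖ ≤ S → ‖x‖ ≤ m' → ‖iteratedFDeriv ℝ n (Gs s) x‖ ≤ b m' n) ∧
  (∀ (m' : ℕ) (s : V m) (x u : V d), ‖s‖ ≤ S → ‖x‖ ≤ m' → ‖u‖ ^ 2 ≤ b m' 0 * ⟪Gs s x u, u⟫_ℝ) ∧
  ∀ (m' n : ℕ) (s s' : V m) (x : V d), ‖s‖ ≤ S → ‖s'‖ ≤ S → ‖x‖ ≤ m' → ‖iteratedFDeriv ℝ n (fun y => Gs s y - Gs s' y) x‖ ≤ b m' n * ‖s - s'‖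

/-- **Row PODF** (the class for families; short; from POD, CFC, FBL). `B` = the bounds of the derivatives of `cfm f (Gs s)`, `‖s‖ ≤ S` (FBL, CFC with `M = 1 + ∑ (|b| + |bounds of FBL|)`), for `n = 0` also the lower bound (`e^f ≥ e^(-b m' 0)`). For fixed `s`: POD for `G0 = Gs s` (`Deck`: `SFm.iso`, `FdK`) gives `q`, `σ` and `Cls Γ K (1/q) B_s (cfm f' (Gs s))` for a `B_s` which depends on `s`:
only the fields `lo`, `bd` of `Cls` contain `B`, and they hold for `B`. -/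
def PODF_stmt : Prop := ∀ (d : ℕ) (Γ : Type) [Group Γ] [MulAction Γ (V d)] (K : Set (V d)) (m : ℕ) (Gs : V m → V d → V d →L[ℝ] V d) (b : ℕ → ℕ → ℝ) (S : ℝ), FdK Γ K → SFm Γ m Gs → ∃ B : ℕ → ℕ → ℝ, ∀ s : V m, ‖s‖ ≤ S →
  ∀ f : V d → ℝ, ContDiff ℝ ∞ f → Inv Γ f → (∀ (m' n : ℕ) (x : V d), ‖x‖ ≤ m' → ‖iteratedFDeriv ℝ n f x‖ ≤ b m' n) → NegativelyCurved (cfm f (Gs s)) → ∃ (q : ℕ) (σ : ℝ), 1 ≤ q ∧ 0 < σ ∧
    ∀ f' : V d → ℝ, ContDiff ℝ ∞ f' → Inv Γ f' → (∀ (m' n : ℕ) (x : V d), ‖x‖ ≤ m' → ‖iteratedFDeriv ℝ n f' x‖ ≤ b m' n) → (∀ n ≤ 2, DK K n (fun x => f x - f' x) σ) → Cls Γ K (1 / q) B (cfm f' (Gs s))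

/-- **Row NGM** (negative curvature is an open condition, for all metrics; medium; adaptation of the file of NGD; from RSY, RCN, NAT and its file). The same argument as for NGD with `G'` instead of `cfm f G0`: `G'` is invariant (`IsoE`), and close to `G0` in `C^2` on `K`. -/
def NGM_stmt : Prop := ∀ (d : ℕ) (Γ : Type) [Group Γ] [MulAction Γ (V d)] (K : Set (V d)) (G0 : V d → V d →L[ℝ] V d), FdK Γ K → IsMetric G0 → IsoE Γ G0 → NegativelyCurved G0 → ∃ σ : ℝ, 0 < σ ∧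
  ∀ G' : V d → V d →L[ℝ] V d, IsMetric G' → IsoE Γ G' → (∀ n ≤ 2, DK K n (fun y => G0 y - G' y) σ) → NegativelyCurved G'

/-- **Row NGB** (negative curvature is an open condition, uniformly for compact families; short-medium; from NGM, FBL, CFC). For `s0 ∈ L` NGM gives `σ`; `cfm f (Gs s) - Gs s0 = (cfm f (Gs s) - cfm 0 (Gs s)) + (Gs s - Gs s0)` (CFC, FBL): small on `K` for `‖s - s0‖ ≤ δ` and `‖D^n f‖ ≤ δ` on `K`. Finitely many balls cover `L`. -/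
def NGB_stmt : Prop := ∀ (d : ℕ) (Γ : Type) [Group Γ] [MulAction Γ (V d)] (K : Set (V d)) (m : ℕ) (Gs : V m → V d → V d →L[ℝ] V d) (L : Set (V m)), FdK Γ K → SFm Γ m Gs → IsCompact L → (∀ s ∈ L, NegativelyCurved (Gs s)) → ∃ σ : ℝ, 0 < σ ∧
  ∀ f : V d → ℝ, ContDiff ℝ ∞ f → Inv Γ f → (∀ n ≤ 2, DK K n f σ) → ∀ s ∈ L, NegativelyCurved (cfm f (Gs s))

/-- **Row BC2F** (Borel-Cantelli for families; medium; adaptation of helper48/VD/BC2D.lean: same proof; from IUWD, SED, PODF, CFC, NNC, MVE, RSM). `b` from SED. For every `S1 ∈ ℕ`: `B` from PODF with `S = S1`; `BCP` with `e/2`, `k = 1/(q+1)`, `S = S1`, `T0 ∈ ℕ`: countably many `(S1, q, T0)`; almost every `ζ` is in only finitely many bad sets for each of them.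
Let `ζ` be such and `s` with `NegativelyCurved (cfm (rD χ ζ) (Gs s))`: `S1 ≥ ‖s‖`, then as in BC2D with `G0 = Gs s` (IUWD with `e / 2 / 1600` for the metric `cfm (rD χ ζ) (Gs s)`): for `i ≥ I1(S1, q, T0)` the point `ζ` is not in the bad set, so the parameter `s` is not bad. -/
def BC2F_stmt : Prop := ∀ (d : ℕ) (Γ : Type) [Group Γ] [MulAction Γ (V d)] (K F0 : Set (V d)) (Cn : Set (V d) → ℕ → ℝ) (k0 : ℕ) (J : ℕ → ℕ) (p : (k : ℕ) → Fin (J k) → V d) (χ : (k : ℕ) → Fin (J k) → V d → ℝ) (m : ℕ) (Gs : V m → V d → V d →L[ℝ] V d),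
  2 ≤ d → FdK Γ K → FDX Γ K F0 → FamD Γ K Cn k0 J p χ → SFm Γ m Gs → BCP Γ K F0 J χ Gs → ∀ (h : V d → ℝ) (e : ℝ), TD Γ h → 0 < e →
    ∀ᵐ ζ ∂PN, ∀ s : V m, NegativelyCurved (cfm (rD χ ζ) (Gs s)) → ∃ r1 : ℝ, 0 < r1 ∧ ∀ (μ : ℝ) (φ : V d → ℂ), r1 ≤ μ → Eigenfunction Γ (cfm (rD χ ζ) (Gs s)) μ φ →
      |(∫ x in F0, h x * ‖φ x‖ ^ 2 ∂mv (cfm (rD χ ζ) (Gs s))) - mean (cfm (rD χ ζ) (Gs s)) F0 h * nn (cfm (rD χ ζ) (Gs s)) F0 φ| ≤ e * nn (cfm (rD χ ζ) (Gs s)) F0 φ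

/-- **Row FNF** (the statement for one exact fundamental domain; short; adaptation of helper5/VD/FND.lean, whose lemmas `FND_ch`, `FND_que`, `FND_tsum`, ... can be imported; from BC2F, FMD, SED, LND, MVE, RSM, APUE). Only the last clause changes. -/
def FNF_stmt : Prop := ∀ (d : ℕ) (Γ : Type) [Group Γ] [MulAction Γ (V d)] (K F0 : Set (V d)), 2 ≤ d → FdK Γ K → FDX Γ K F0 → ∃ (k0 : ℕ) (J : ℕ → ℕ) (u : ℕ → ℕ → V d → ℝ), (∀ k, k0 ≤ k → 1 ≤ J k) ∧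
  (∀ k j, ContDiff ℝ ∞ (u k j) ∧ Inv Γ (u k j) ∧ ∀ x, 0 ≤ u k j x) ∧
  (∀ L : Set (V d), IsCompact L → ∀ n : ℕ, ∃ c : ℕ → ℝ, Summable c ∧ ∀ (k : ℕ) (ξ : ℕ → ℝ), (∀ j, |ξ j| ≤ 1) → DK L n (fun x => ∑ j ∈ Finset.range (J k), ξ j * u k j x) (c k)) ∧
  (∀ ζ : ℕ × ℕ → ℝ, (∀ q, |ζ q| ≤ 1) → ContDiff ℝ ∞ (fun x => ∑' k, ∑ j ∈ Finset.range (J k), ζ (k, j) * u k j x)) ∧
  ∀ Q : (m : ℕ) → (V m → V d → V d →L[ℝ] V d) → Prop, AdQ Γ K F0 Q → ∀ (m : ℕ) (Gs : V m → V d → V d →L[ℝ] V d), Q m Gs → ∀ᵐ ζ ∂PN, ∀ s : V m,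
    NegativelyCurved (cfm (fun x => ∑' k, ∑ j ∈ Finset.range (J k), ζ (k, j) * u k j x) (Gs s)) → QUE Γ F0 (cfm (fun x => ∑' k, ∑ j ∈ Finset.range (J k), ζ (k, j) * u k j x) (Gs s))

/-- **Row FNWF** (the final statement for a class `Q` of families; short; adaptation of helper38/VD/FNWE.lean; from FNF, FTR, NGB, FPS, DFD, CFC, RSM). -/
def FNWF_stmt : Prop := ∀ (d : ℕ) (Γ : Type) [Group Γ] [MulAction Γ (V d)], 2 ≤ d →
    (∀ γ : Γ, ContDiff ℝ ∞ fun x : V d => γ • x) → (∀ (γ : Γ) (x : V d), γ • x = x → γ = 1) →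
    (∀ K : Set (V d), IsCompact K → {γ : Γ | ∃ x ∈ K, γ • x ∈ K}.Finite) → (∃ K : Set (V d), IsCompact K ∧ ∀ x : V d, ∃ γ : Γ, γ • x ∈ K) →
    ∃ (k₀ : ℕ) (J : ℕ → ℕ) (u : ℕ → ℕ → V d → ℝ), (∀ k, k₀ ≤ k → 1 ≤ J k) ∧
      (∀ k j, ContDiff ℝ ∞ (u k j) ∧ Inv Γ (u k j) ∧ ∀ x, 0 ≤ u k j x) ∧
      (∀ L : Set (V d), IsCompact L → ∀ n : ℕ, ∃ c : ℕ → ℝ, Summable c ∧ ∀ (k : ℕ) (ξ : ℕ → ℝ), (∀ j, |ξ j| ≤ 1) →
        ∀ x ∈ L, ‖iteratedFDeriv ℝ n (fun x => ∑ j ∈ Finset.range (J k), ξ j * u k j x) x‖ ≤ c k) ∧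
      (∀ ξ : ℕ × ℕ → ℝ, (∀ q, |ξ q| ≤ 1) → ContDiff ℝ ∞ (fun x => ∑' k, ∑ j ∈ Finset.range (J k), ξ (k, j) * u k j x)) ∧
      ∀ Q : (m : ℕ) → (V m → V d → V d →L[ℝ] V d) → Prop, (∀ K F0 : Set (V d), FdK Γ K → FDX Γ K F0 → AdQ Γ K F0 Q) → ∀ (m : ℕ) (Gs : V m → V d → V d →L[ℝ] V d), Q m Gs →
        (∀ᵐ ξ ∂(Measure.infinitePi fun _ : ℕ × ℕ => UN), ∀ s : V m, NegativelyCurved (cfm (fun x => ∑' k, ∑ j ∈ Finset.range (J k), ξ (k, j) * u k j x) (Gs s)) →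
          ∀ F : Set (V d), IsFundamentalDomain Γ F (volume : Measure (V d)) → QUE Γ F (cfm (fun x => ∑' k, ∑ j ∈ Finset.range (J k), ξ (k, j) * u k j x) (Gs s))) ∧
        ∀ L : Set (V m), IsCompact L → (∀ s ∈ L, NegativelyCurved (Gs s)) → ∀ (L' : Set (V d)) (n₀ : ℕ) (τ : ℝ), IsCompact L' → 0 < τ → 0 < (Measure.infinitePi fun _ : ℕ × ℕ => UN) {ξ : ℕ × ℕ → ℝ |
          (∀ n ≤ n₀, ∀ x ∈ L', ‖iteratedFDeriv ℝ n (fun x => ∑' k, ∑ j ∈ Finset.range (J k), ξ (k, j) * u k j x) x‖ ≤ τ) ∧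
          ∀ s ∈ L, NegativelyCurved (cfm (fun x => ∑' k, ∑ j ∈ Finset.range (J k), ξ (k, j) * u k j x) (Gs s)) ∧
          ∀ F : Set (V d), IsFundamentalDomain Γ F (volume : Measure (V d)) → QUE Γ F (cfm (fun x => ∑' k, ∑ j ∈ Finset.range (J k), ξ (k, j) * u k j x) (Gs s))}

end

end Pool.Agent.VDI
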